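import Pool.Agent.Helper56.IT.Defs
import Pool.Agent.Helper96.QT.Def

/-!
# Project TF, part A1 (MP_a499ba_nt): the real characters of odd conductor. Statements

`OS Q`: odd squarefree `q ≤ Q`; `zq q p = -(p/q)` for `p ∤ q`, `1` for `p ∣ q`. Under the uniform law on `OS Q` the signs
`zq q p`, `p` prime, behave like independent signs, `P (zq q p = 1) = (1 + bp p) / 2`.
-/

set_option autoImplicit false

namespace Pool.Agent.Helper11.Q3

open Finset Pool.Agent.Helper5.RM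

/-- the odd squarefree integers up to `Q` -/
def OS (Q : ℕ) : Finset ℕ := (Finset.Icc 1 Q).filter fun q => Odd q ∧ Squarefree q

/-- the sign at the prime `p` -/
noncomputable def zq (q p : ℕ) : ℝ := if p ∣ q then 1 else -(jacobiSym p q : ℝ)

/-- the mean of the sign at `p` -/
noncomputable def bp (p : ℕ) : ℝ := if p = 2 then 0 else 1 / ((p : ℝ) + 1)

/-- (J1a) character sums over odd squarefree `q ≡ 0 mod b` -/
def StmtJ1a : Prop := ∃ C : ℝ, 0 < C ∧ ∀ (Q a b : ℕ), Squarefree a → 1 < a → Odd b →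
  |∑ q ∈ (OS Q).filter (fun q => b ∣ q), (jacobiSym a q : ℝ)| ≤ C * a * Real.sqrt Q

/-- (J1b) density of the multiples of `∏ p ∈ S, p` -/
def StmtJ1b : Prop := ∃ C : ℝ, 0 < C ∧ ∀ (Q : ℕ) (S : Finset ℕ), (∀ p ∈ S, p.Prime ∧ p ≠ 2) →
  |(((OS Q).filter (fun q => (∏ p ∈ S, p) ∣ q)).card : ℝ) - (OS Q).card * ∏ p ∈ S, bp p| ≤ C * Real.sqrt Q

/-- (J1c) from J1a and J1b -/
def StmtJ1 : Prop := ∃ C : ℝ, 0 < C ∧ ∀ (Q : ℕ) (S : Finset ℕ), (∀ p ∈ S, p.Prime) →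
  |∑ q ∈ OS Q, ∏ p ∈ S, zq q p - (OS Q).card * ∏ p ∈ S, bp p| ≤ C * (∏ p ∈ S, (p : ℝ)) ^ 2 * Real.sqrt Q

/-- (J1d) -/
def StmtJ1d : Prop := ∀ Q : ℕ, (Q : ℝ) / 8 ≤ (OS Q).card

/-- the biased product law on the subsets of `S` -/
noncomputable def pb (S : Finset ℕ) (P : Finset ℕ → Prop) : ℝ := av S fun T => (open Classical in if P T then (1 : ℝ) else 0) *
  ∏ p ∈ S, (1 + sg T p * bp p)

/-- (J2) contiguity with fair signs (Cauchy-Schwarz, `∏ (1 + bp p ^ 2) ≤ exp (∑ 1 / (p+1)^2)`) -/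
def StmtJ2 : Prop := ∃ C : ℝ, 0 < C ∧ ∀ (N : ℕ) (P : Finset ℕ → Prop), pb (PP N) P ≤ C * Real.sqrt (pr (PP N) P)

/-- the squarefree sum of the signs `z` -/
noncomputable def fz (z : ℕ → ℝ) (n : ℕ) : ℝ := if Squarefree n then ∏ p ∈ n.primeFactors, z p else 0

/-- the completely multiplicative function with the values `z` -/
noncomputable def gz (z : ℕ → ℝ) (n : ℕ) : ℝ := if n = 0 then 0 else ∏ p ∈ n.primeFactors, z p ^ n.factorization p

/-- (J3a) the zeros are removed: squarefree sums -/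
def StmtJ3a : Prop := ∀ q N : ℕ, 0 < q → ∑ n ∈ Icc 1 N, fz (zq q) n =
  ∑ k ∈ (Icc 1 N).filter (fun k : ℕ => Squarefree k ∧ ∀ p ∈ k.primeFactors, p ∣ q),
    ∑ n ∈ Icc 1 (N / k), (ArithmeticFunction.moebius n : ℝ) * (jacobiSym n q : ℝ)

/-- (J3b) the zeros are removed: completely multiplicative sums -/
def StmtJ3b : Prop := ∀ q N : ℕ, 0 < q → ∑ n ∈ Icc 1 N, gz (zq q) n =
  ∑ k ∈ (Icc 1 N).filter (fun k : ℕ => ∀ p ∈ k.primeFactors, p ∣ q),
    ∑ n ∈ Icc 1 (N / k), (-1 : ℝ) ^ ArithmeticFunction.cardFactors n * (jacobiSym n q : ℝ)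

/-- the sums of `k^(-1/2)` over the `k` composed of the primes of `q` are at most `C` -/
def Sm (C : ℝ) (q : ℕ) : Prop :=
  ∀ N : ℕ, ∑ k ∈ (Icc 1 N).filter (fun k : ℕ => ∀ p ∈ k.primeFactors, p ∣ q), 1 / Real.sqrt k ≤ C

open Classical in
/-- (J3c) true for most `q` -/
def StmtJ3c : Prop := ∀ ε : ℝ, 0 < ε → ∃ C : ℝ, 0 < C ∧ ∀ Q : ℕ, (((OS Q).filter fun q => ¬ Sm C q).card : ℝ) ≤ ε * (OS Q).card

/-- (J4) the character -/
def StmtJ4 : Prop := ∀ q : ℕ, Odd q → Squarefree q → 1 < q → ∃ (_ : NeZero q) (χ : DirichletCharacter ℂ q),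
  Pool.Agent.QT.Dat χ (fun n => (ArithmeticFunction.moebius n : ℝ) * (jacobiSym n q : ℝ)) ∧
    ∀ n : ℕ, χ n = (jacobiSym n q : ℂ)

end Pool.Agent.Helper11.Q3
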